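import Mathlib
import Pool.Agent.Lib.Helper34.SP.Defs
import Pool.Agent.Lib.Helper34.SP.NegMain
import Pool.Agent.Lib.Helper34.SP.Pos6

/-!
# Two-dimensional complex subspaces of Schatten classes inside complex `L_p`

The complex span of every pair of elements of `S_p` embeds isometrically in complex `L_p` if and
only if `p` is `2`, `4` or `6`.
-/

set_option autoImplicit false

open Pool.Agent.Lib.Helper34.SP

namespace Pool.Agent.Results.MP_41c25d_an.Classification

/-- Let `H` be a complex Hilbert space with a Hilbert basis having two different members, and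
`1 ≤ p < ∞`. For every pair `A, B` in the Schatten class `S_p` there are `f, g` in `L_p((0,1), ℂ)`
with `‖α A + β B‖ = ‖α f + β g‖` for all complex `α, β` if and only if `p` is `2`, `4` or `6`. -/
theorem result {ι H : Type*} [NormedAddCommGroup H] [InnerProductSpace ℂ H] [CompleteSpace H]
    (b : HilbertBasis ι ℂ H) {i j : ι} (hij : i ≠ j) {p : ℝ} (hp : 1 ≤ p) :
    PairProperty b p ↔ p = 2 ∨ p = 4 ∨ p = 6 := by
  refine ⟨fun h => pair_imp hij hp h, ?_⟩
  rintro (h | h | h)
  · have h1 := pair_of_fin b (m := 1) le_rfl (by norm_num) fun κ _ _ A B => rep_one A B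
    have h2 : (2 * ((1 : ℕ) : ℝ)) = p := by rw [h]; norm_num
    rwa [h2] at h1
  · have h1 := pair_of_fin b (m := 2) (by norm_num) (by norm_num) fun κ _ _ A B => rep_two A B
    have h2 : (2 * ((2 : ℕ) : ℝ)) = p := by rw [h]; norm_num
    rwa [h2] at h1
  · have h1 := pair_of_fin b (m := 3) (by norm_num) (by norm_num) fun κ _ _ A B => rep_three A B
    have h2 : (2 * ((3 : ℕ) : ℝ)) = p := by rw [h]; norm_num
    rwa [h2] at h1

end Pool.Agent.Results.MP_41c25d_an.Classification
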